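import Mathlib

/-!
# Minimal systems and the average shadowing property: definitions
-/

namespace Pool.Agent.X238.Asp

open Filter Topology

/-- The system `(X, f)` is minimal: there is no nonempty closed `f`-invariant proper subset. -/
def IsMinimalMap {X : Type*} [TopologicalSpace X] (f : X → X) : Prop :=
  ∀ A : Set X, IsClosed A → A.Nonempty → (∀ x ∈ A, f x ∈ A) → A = Set.univ

/-- The sequence `x` is a `δ`-average-pseudo-orbit of `f`. -/
def IsAveragePseudoOrbit {X : Type*} [MetricSpace X] (f : X → X) (δ : ℝ) (x : ℕ → X) : Prop :=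
  ∃ N : ℕ, 0 < N ∧ ∀ n : ℕ, N ≤ n → ∀ k : ℕ,
    1 / (n : ℝ) * ∑ i ∈ Finset.range n, dist (f (x (i + k))) (x (i + k + 1)) < δ

/-- The sequence `x` is `ε`-shadowed in average by the point `y`. -/
def IsShadowedInAverage {X : Type*} [MetricSpace X] (f : X → X) (ε : ℝ) (x : ℕ → X) (y : X) :
    Prop :=
  limsup (fun n : ℕ => 1 / (n : ℝ) * ∑ i ∈ Finset.range n, dist (f^[i] y) (x i)) atTop < ε

/-- The average shadowing property. -/
def HasASP {X : Type*} [MetricSpace X] (f : X → X) : Prop :=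
  ∀ ε : ℝ, 0 < ε → ∃ δ : ℝ, 0 < δ ∧ ∀ x : ℕ → X, IsAveragePseudoOrbit f δ x →
    ∃ y : X, IsShadowedInAverage f ε x y

end Pool.Agent.X238.Asp
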