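import Pool.Agent.X238.Asp.Main

/-!
# The shift on the subshift has the average shadowing property
-/

namespace Pool.Agent.X238.Asp

open Finset Filter Topology

attribute [local instance] PiNat.metricSpace

lemma count_shift (y z : ℕ → Bool) (n j K : ℕ) (hj : j < K) :
    ((range n).filter fun i => z (i + j) ≠ y (i + j)).card ≤ ham z y (n + K) := by
  unfold ham
  refine card_le_card_of_injOn (fun i => i + j) ?_ ?_
  · intro i hi
    simp only [coe_filter, mem_range, Set.mem_ofPred_eq] at hi ⊢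
    exact ⟨by omega, hi.2⟩
  · intro i _ i' _ h
    simp only at h
    omega

/-- The sum of the distances is bounded by numbers of differences. -/
lemma sum_dist_le (y : XX) (x : ℕ → XX) (n K : ℕ) :
    ∑ i ∈ range n, dist (shift^[i] y) (x i) ≤ n * (1 / 2 : ℝ) ^ K +
      ∑ j ∈ range K, ((ham (fun i => (x i).1 0) y.1 (n + K) : ℝ) +
        (((range n).filter fun i => (x (i + j)).1 0 ≠ (x i).1 j).card : ℝ)) := by
  calc ∑ i ∈ range n, dist (shift^[i] y) (x i)
      ≤ ∑ i ∈ range n, ((1 / 2 : ℝ) ^ K +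
          ∑ j ∈ range K, (if (shift^[i] y).1 j ≠ (x i).1 j then (1 : ℝ) else 0)) :=
        sum_le_sum fun i _ => dist_le_count _ _ K
    _ = n * (1 / 2 : ℝ) ^ K + ∑ j ∈ range K, ∑ i ∈ range n,
          (if (shift^[i] y).1 j ≠ (x i).1 j then (1 : ℝ) else 0) := by
        rw [sum_add_distrib, sum_const, card_range, nsmul_eq_mul, sum_comm]
    _ ≤ _ := by
        gcongr with j hj
        rw [mem_range] at hj
        have h1 : ((range n).filter fun i => (shift^[i] y).1 j ≠ (x i).1 j) ⊆
            ((range n).filter fun i => (fun i => (x i).1 0) (i + j) ≠ y.1 (i + j)) ∪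
              ((range n).filter fun i => (x (i + j)).1 0 ≠ (x i).1 j) := by
          intro i hi
          rw [mem_filter, shift_iterate, add_comm j i] at hi
          rw [mem_union, mem_filter, mem_filter]
          by_cases h : (x (i + j)).1 0 = y.1 (i + j)
          · right
            refine ⟨hi.1, ?_⟩
            rw [h]
            exact hi.2
          · left
            exact ⟨hi.1, h⟩
        have h2 := (card_le_card h1).trans (card_union_le _ _)
        have h3 := count_shift y.1 (fun i => (x i).1 0) n j K hj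
        have h4 : ((range n).filter fun i => (shift^[i] y).1 j ≠ (x i).1 j).card ≤
            ham (fun i => (x i).1 0) y.1 (n + K) +
              ((range n).filter fun i => (x (i + j)).1 0 ≠ (x i).1 j).card :=
          h2.trans (Nat.add_le_add_right h3 _)
        rw [card_filter] at h4
        exact_mod_cast h4

theorem asp_shift : HasASP shift := by
  intro ε hε
  obtain ⟨K, hK⟩ := exists_pow_lt_of_lt_one (by positivity : 0 < ε / 8)
    (by norm_num : (1 / 2 : ℝ) < 1)
  obtain ⟨k, hk⟩ := exists_pow_lt_of_lt_one (by positivity : 0 < ε / (32 * ((K : ℝ) + 1)))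
    (by norm_num : (1 / 2 : ℝ) < 1)
  set D := Dd (lv k).n with hD
  obtain ⟨L, hL1, hL2⟩ : ∃ L : ℕ, 4 * D + 1 ≤ L ∧ 48 * (K : ℝ) * D / ε ≤ L := by
    obtain ⟨L, hL⟩ := exists_nat_ge (48 * (K : ℝ) * D / ε)
    exact ⟨L + (4 * D + 1), by omega, by push_cast; linarith [Nat.cast_nonneg (α := ℝ) D]⟩
  have hL0 : 0 < L := by omega
  have hLr : (0 : ℝ) < L := by exact_mod_cast hL0
  have hKr : (0 : ℝ) ≤ K := by positivity
  set δ : ℝ := ε / (16 * ((K : ℝ) + 1) * L * 2 ^ L * 2 ^ K) with hδdef
  have hδ : 0 < δ := by positivity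
  refine ⟨δ, hδ, ?_⟩
  rintro x ⟨N, hN0, hN⟩
  have hsum : ∀ n : ℕ, N ≤ n → ∀ k : ℕ,
      ∑ i ∈ range n, dist (shift (x (i + k))) (x (i + k + 1)) ≤ δ * n := by
    intro n hn k
    have h1 := hN n hn k
    have hn0 : (0 : ℝ) < n := by exact_mod_cast lt_of_lt_of_le hN0 hn
    rw [one_div, inv_mul_lt_iff₀ hn0] at h1
    linarith
  obtain ⟨y0, hy0, hy0'⟩ := block_approx (lv k) (fun y hy => hy k) x L (by omega) hL0
  obtain ⟨y, hy, hy'⟩ := limit k y0 hy0
  refine ⟨⟨y, hy⟩, ?_⟩
  have hcount : ∀ n : ℕ, N ≤ n → ∀ j : ℕ,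
      (((range n).filter fun i => (x (i + j)).1 0 ≠ (x i).1 j).card : ℝ) ≤ 2 ^ j * (δ * n) := by
    intro n hn j
    have h1 := count_letter (hsum n hn) j 0
    simp only [add_zero] at h1
    have h2 : (2 ^ j - 1) * (δ * n) ≤ 2 ^ j * (δ * n) := by
      apply mul_le_mul_of_nonneg_right _ (by positivity)
      linarith
    exact h1.trans h2
  have hgeom : ∀ M : ℕ, ∑ j ∈ range M, (2 : ℝ) ^ j ≤ 2 ^ M := by
    intro M
    induction M with
    | zero => simp
    | succ M ih =>
      rw [sum_range_succ, pow_succ]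
      linarith
  have hkey : ∀ᶠ n : ℕ in atTop,
      1 / (n : ℝ) * ∑ i ∈ range n, dist (shift^[i] (⟨y, hy⟩ : XX)) (x i) ≤ 5 / 8 * ε := by
    filter_upwards [eventually_ge_atTop N, eventually_ge_atTop L, eventually_ge_atTop K]
      with n hnN hnL hnK
    have hn0 : (0 : ℝ) < n := by exact_mod_cast lt_of_lt_of_le hN0 hnN
    have hnLr : (L : ℝ) ≤ n := by exact_mod_cast hnL
    have hnKr : (K : ℝ) ≤ n := by exact_mod_cast hnK
    rw [one_div, inv_mul_le_iff₀ hn0]
    have h1 := sum_dist_le ⟨y, hy⟩ x n K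
    -- the Hamming distance
    have hH : (ham (fun i => (x i).1 0) y (n + K) : ℝ) ≤
        6 * D * n / L + 2 * L * 2 ^ L * δ * n + 4 * (1 / 2) ^ k * n := by
      have e1 := ham_triangle (fun i => (x i).1 0) y0 y (n + K)
      have e2 := hy0' (n + K)
      have e3 := hy' (n + K)
      have e1' : (ham (fun i => (x i).1 0) y (n + K) : ℝ) ≤
          (ham (fun i => (x i).1 0) y0 (n + K) : ℝ) + (ham y0 y (n + K) : ℝ) := by
        exact_mod_cast e1
      have e2' : (ham (fun i => (x i).1 0) y0 (n + K) : ℝ) ≤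
          (((n + K) / L : ℕ) + 1 : ℝ) * (2 * D) + L * ∑ j ∈ range L,
            (((range (n + K)).filter fun i => (x (i + j)).1 0 ≠ (x i).1 j).card : ℝ) := by
        exact_mod_cast e2
      have e3' : (2 : ℝ) ^ k * (ham y0 y (n + K) : ℝ) ≤ 2 * (n + K) := by
        exact_mod_cast e3
      have e4 : (ham y0 y (n + K) : ℝ) ≤ 4 * (1 / 2) ^ k * n := by
        have h2 : (0 : ℝ) < (1 / 2) ^ k := by positivity
        have h3 : (1 / 2 : ℝ) ^ k * 2 ^ k = 1 := by
          rw [← mul_pow]
          norm_num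
        calc (ham y0 y (n + K) : ℝ) = ((1 / 2 : ℝ) ^ k * 2 ^ k) * (ham y0 y (n + K) : ℝ) := by
              rw [h3, one_mul]
          _ = (1 / 2 : ℝ) ^ k * (2 ^ k * (ham y0 y (n + K) : ℝ)) := by ring
          _ ≤ (1 / 2 : ℝ) ^ k * (2 * (n + K)) := mul_le_mul_of_nonneg_left e3' h2.le
          _ ≤ (1 / 2 : ℝ) ^ k * (4 * n) := mul_le_mul_of_nonneg_left (by linarith) h2.le
          _ = _ := by ring
      have e5 : ∑ j ∈ range L,
            (((range (n + K)).filter fun i => (x (i + j)).1 0 ≠ (x i).1 j).card : ℝ) ≤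
            2 ^ L * (δ * (2 * n)) := by
        calc ∑ j ∈ range L,
            (((range (n + K)).filter fun i => (x (i + j)).1 0 ≠ (x i).1 j).card : ℝ)
            ≤ ∑ j ∈ range L, (2 : ℝ) ^ j * (δ * (n + K : ℕ)) :=
              sum_le_sum fun j _ => hcount (n + K) (by omega) j
          _ = (∑ j ∈ range L, (2 : ℝ) ^ j) * (δ * (n + K : ℕ)) := (sum_mul _ _ _).symm
          _ ≤ 2 ^ L * (δ * (n + K : ℕ)) :=
              mul_le_mul_of_nonneg_right (hgeom L) (by positivity)
          _ ≤ _ := by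
              apply mul_le_mul_of_nonneg_left _ (by positivity)
              apply mul_le_mul_of_nonneg_left _ hδ.le
              push_cast
              linarith
      have e6 : ((((n + K) / L : ℕ) : ℝ) + 1) * (2 * D) ≤ 6 * D * n / L := by
        have h4 : (((n + K) / L : ℕ) : ℝ) ≤ ((n + K : ℕ) : ℝ) / L := Nat.cast_div_le
        have h5 : (((n + K) / L : ℕ) : ℝ) + 1 ≤ 3 * n / L := by
          rw [le_div_iff₀ hLr]
          rw [le_div_iff₀ hLr] at h4
          push_cast at h4
          have : ((((n + K) / L : ℕ) : ℝ) + 1) * L = (((n + K) / L : ℕ) : ℝ) * L + L := by ring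
          rw [this]
          linarith
        calc ((((n + K) / L : ℕ) : ℝ) + 1) * (2 * D) ≤ (3 * n / L) * (2 * D) :=
              mul_le_mul_of_nonneg_right h5 (by positivity)
          _ = _ := by ring
      have e7 := mul_le_mul_of_nonneg_left e5 hLr.le
      have e8 : (L : ℝ) * (2 ^ L * (δ * (2 * n))) = 2 * L * 2 ^ L * δ * n := by ring
      rw [e8] at e7
      linarith
    have h2 : ∑ j ∈ range K, ((ham (fun i => (x i).1 0) y (n + K) : ℝ) +
        (((range n).filter fun i => (x (i + j)).1 0 ≠ (x i).1 j).card : ℝ)) ≤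
        K * (6 * D * n / L + 2 * L * 2 ^ L * δ * n + 4 * (1 / 2) ^ k * n) +
          2 ^ K * (δ * n) := by
      rw [sum_add_distrib, sum_const, card_range, nsmul_eq_mul]
      apply add_le_add (mul_le_mul_of_nonneg_left hH hKr)
      calc ∑ j ∈ range K, (((range n).filter fun i => (x (i + j)).1 0 ≠ (x i).1 j).card : ℝ)
          ≤ ∑ j ∈ range K, (2 : ℝ) ^ j * (δ * n) := sum_le_sum fun j _ => hcount n hnN j
        _ = (∑ j ∈ range K, (2 : ℝ) ^ j) * (δ * n) := (sum_mul _ _ _).symm
        _ ≤ 2 ^ K * (δ * n) := mul_le_mul_of_nonneg_right (hgeom K) (by positivity)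
    -- the parameters
    have p1 : (K : ℝ) * (6 * D * n / L) ≤ ε / 8 * n := by
      have h3 : 48 * (K : ℝ) * D ≤ L * ε := by
        rwa [div_le_iff₀ hε] at hL2
      rw [mul_div_assoc', div_le_iff₀ hLr]
      have h4 := mul_le_mul_of_nonneg_right h3 hn0.le
      linarith
    have p2 : (K : ℝ) * (2 * L * 2 ^ L * δ * n) ≤ ε / 8 * n := by
      have h3 : (K : ℝ) * (2 * L * 2 ^ L * δ) ≤ ε / 8 := by
        have h4 : (K : ℝ) * (2 * L * 2 ^ L * δ) = ε / 8 * (K / ((K + 1) * 2 ^ K)) := by
          rw [hδdef]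
          have : (0 : ℝ) < (K : ℝ) + 1 := by positivity
          field_simp
          ring
        rw [h4]
        have h5 : (K : ℝ) / ((K + 1) * 2 ^ K) ≤ 1 := by
          rw [div_le_one (by positivity)]
          have h6 : (1 : ℝ) ≤ 2 ^ K := one_le_pow₀ (by norm_num)
          nlinarith
        have := mul_le_mul_of_nonneg_left h5 (by positivity : 0 ≤ ε / 8)
        linarith
      have := mul_le_mul_of_nonneg_right h3 hn0.le
      linarith
    have p3 : (K : ℝ) * (4 * (1 / 2) ^ k * n) ≤ ε / 8 * n := by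
      have h3 : (K : ℝ) * (4 * (1 / 2) ^ k) ≤ ε / 8 := by
        have h4 : (K : ℝ) * (4 * (1 / 2) ^ k) ≤ ((K : ℝ) + 1) * (4 * (ε / (32 * ((K : ℝ) + 1)))) := by
          apply mul_le_mul (by linarith) (by linarith) (by positivity) (by positivity)
        have h5 : ((K : ℝ) + 1) * (4 * (ε / (32 * ((K : ℝ) + 1)))) = ε / 8 := by
          have : (0 : ℝ) < (K : ℝ) + 1 := by positivity
          field_simp
          ring
        linarith
      have := mul_le_mul_of_nonneg_right h3 hn0.le
      linarith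
    have p4 : 2 ^ K * (δ * n) ≤ ε / 8 * n := by
      have h3 : 2 ^ K * δ ≤ ε / 8 := by
        have h4 : 2 ^ K * δ = ε / 8 * (1 / (2 * ((K : ℝ) + 1) * L * 2 ^ L)) := by
          rw [hδdef]
          have : (0 : ℝ) < (K : ℝ) + 1 := by positivity
          field_simp
          ring
        rw [h4]
        have h5 : 1 / (2 * ((K : ℝ) + 1) * L * 2 ^ L) ≤ 1 := by
          rw [div_le_one (by positivity)]
          have h6 : (1 : ℝ) ≤ 2 ^ L := one_le_pow₀ (by norm_num)
          have h7 : (1 : ℝ) ≤ L := by exact_mod_cast hL0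
          have h8 : (1 : ℝ) ≤ 2 * ((K : ℝ) + 1) := by linarith
          have h9 : (1 : ℝ) ≤ 2 * ((K : ℝ) + 1) * L := one_le_mul_of_one_le_of_one_le h8 h7
          exact one_le_mul_of_one_le_of_one_le h9 h6
        have := mul_le_mul_of_nonneg_left h5 (by positivity : 0 ≤ ε / 8)
        linarith
      have := mul_le_mul_of_nonneg_right h3 hn0.le
      linarith
    have p5 : (n : ℝ) * (1 / 2) ^ K ≤ ε / 8 * n := by
      have := mul_le_mul_of_nonneg_left hK.le hn0.le
      linarith
    have h3 : (K : ℝ) * (6 * D * n / L + 2 * L * 2 ^ L * δ * n + 4 * (1 / 2) ^ k * n) =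
        K * (6 * D * n / L) + K * (2 * L * 2 ^ L * δ * n) + K * (4 * (1 / 2) ^ k * n) := by ring
    rw [h3] at h2
    linarith
  have hbdd : IsBoundedUnder (· ≥ ·) atTop (fun n : ℕ =>
      1 / (n : ℝ) * ∑ i ∈ range n, dist (shift^[i] (⟨y, hy⟩ : XX)) (x i)) :=
    isBoundedUnder_of ⟨0, fun n => mul_nonneg (by positivity) (sum_nonneg fun i _ => dist_nonneg)⟩
  have := limsup_le_of_le hbdd.isCoboundedUnder_le hkey
  unfold IsShadowedInAverage
  linarith

/-- There is a nontrivial minimal system with the average shadowing property. -/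
theorem main : ∃ (X : Type) (_ : MetricSpace X) (_ : CompactSpace X) (_ : Nontrivial X) (f : X → X),
    Continuous f ∧ IsMinimalMap f ∧ HasASP f :=
  ⟨XX, inferInstance, inferInstance, inferInstance, shift, continuous_shift, minimal_shift,
    asp_shift⟩

end Pool.Agent.X238.Asp
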