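import Pool.Agent.X238.Asp.Words

/-!
# The sequence of sets of words
-/

namespace Pool.Agent.X238.Asp

open Finset

variable {W : Set Word} {n : ℕ}

/-- The concatenation of all words of a finite set. -/
noncomputable def pre (W : Set Word) (hf : W.Finite) : Word := hf.toFinset.toList.flatten

lemma pre_conc (W : Set Word) (hf : W.Finite) : pre W hf ∈ Conc W :=
  ⟨hf.toFinset.toList, fun w hw => by simpa using hw, rfl⟩

lemma infix_flatten {L : List Word} {w : Word} (h : w ∈ L) : w <:+: L.flatten := by
  obtain ⟨s, t, rfl⟩ := List.append_of_mem h
  exact ⟨s.flatten, t.flatten, by simp⟩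

lemma infix_pre {W : Set Word} (hf : W.Finite) {w : Word} (hw : w ∈ W) : w <:+: pre W hf :=
  infix_flatten (by simpa using hw)

/-- The words of the next level: a fixed prefix followed by a concatenation. -/
def nextW (W : Set Word) (p : Word) (N : ℕ) : Set Word :=
  {w | ∃ u ∈ Conc W, w = p ++ u ∧ (w.length = N ∨ w.length = N + 1)}

lemma next_lev (h : Lev W n) (p : Word) (N : ℕ) (hN : p.length + n * n ≤ N) (hpos : 0 < N) :
    Lev (nextW W p N) N := by
  refine ⟨hpos, ?_, ?_, ?_, ?_⟩
  · apply (List.finite_length_le Bool (N + 1)).subset
    rintro w ⟨u, _, _, h3⟩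
    show w.length ≤ N + 1
    omega
  · rintro w ⟨u, _, _, h3⟩
    exact h3
  · obtain ⟨u, hu, hu'⟩ := h.fill (N - p.length) (by omega)
    refine ⟨p ++ u, ⟨u, hu, rfl, ?_⟩, ?_⟩ <;> rw [List.length_append] <;> omega
  · obtain ⟨u, hu, hu'⟩ := h.fill (N + 1 - p.length) (by omega)
    refine ⟨p ++ u, ⟨u, hu, rfl, ?_⟩, ?_⟩ <;> rw [List.length_append] <;> omega

lemma next_sub (h : Lev W n) (N : ℕ) : nextW W (pre W h.fin) N ⊆ Conc W := by
  rintro w ⟨u, hu, rfl, _⟩
  exact conc_append (pre_conc W h.fin) hu

/-- A set of words of two consecutive lengths. -/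
structure Level where
  /-- the words -/
  W : Set Word
  /-- the smaller one of the two lengths -/
  n : ℕ
  /-- the properties -/
  lev : Lev W n

/-- All words of the lengths one and two. -/
def base : Level where
  W := {w | w.length = 1 ∨ w.length = 2}
  n := 1
  lev := by
    refine ⟨one_pos, ?_, fun w hw => hw, ⟨[false], Or.inl rfl, rfl⟩,
      ⟨[false, false], Or.inr rfl, rfl⟩⟩
    apply (List.finite_length_le Bool 2).subset
    intro w hw
    have hw' : w.length = 1 ∨ w.length = 2 := hw
    show w.length ≤ 2
    omega

/-- The common prefix of the words of the next level. -/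
noncomputable def Level.p (A : Level) : Word := pre A.W A.lev.fin

/-- A bound. -/
noncomputable def Level.B (A : Level) : ℕ := A.p.length + 4 * Dd A.n + 1

/-- The length of the words of the next level. -/
noncomputable def Level.N (A : Level) (j : ℕ) : ℕ := 64 * (2 ^ j * A.B)

lemma Level.N_ge (A : Level) (j : ℕ) : 64 * A.B ≤ A.N j := by
  unfold Level.N
  have : 1 * A.B ≤ 2 ^ j * A.B := Nat.mul_le_mul_right _ Nat.one_le_two_pow
  omega

/-- The next level. -/
noncomputable def Level.next (A : Level) (j : ℕ) : Level where
  W := nextW A.W A.p (A.N j)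
  n := A.N j
  lev := next_lev A.lev A.p (A.N j) (by
    have h1 := A.N_ge j
    have h2 : A.B = A.p.length + 4 * Dd A.n + 1 := rfl
    have h3 : Dd A.n = A.n * A.n + 2 * (A.n + 1) := rfl
    omega) (by
    have h1 := A.N_ge j
    have h2 : A.B = A.p.length + 4 * Dd A.n + 1 := rfl
    omega)

/-- The sequence of levels. -/
noncomputable def lv : ℕ → Level
  | 0 => base
  | j + 1 => (lv j).next j

/-- A factor of an infinite word. -/
def seg (y : ℕ → Bool) (i m : ℕ) : Word := (List.range m).map fun t => y (i + t)

@[simp] lemma seg_length (y : ℕ → Bool) (i m : ℕ) : (seg y i m).length = m := by simp [seg]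

lemma seg_add (y : ℕ → Bool) (i m m' : ℕ) : seg y i (m + m') = seg y i m ++ seg y (i + m) m' := by
  unfold seg
  rw [List.range_add, List.map_append, List.map_map]
  congr 1
  apply List.map_congr_left
  intro t _
  simp [add_assoc]

lemma seg_infix (y : ℕ → Bool) {i m i' m' : ℕ} (h1 : i ≤ i') (h2 : i' + m' ≤ i + m) :
    seg y i' m' <:+: seg y i m := by
  obtain ⟨a, rfl⟩ := Nat.exists_eq_add_of_le h1
  obtain ⟨b, hb⟩ := Nat.exists_eq_add_of_le h2
  have : m = a + (m' + b) := by omega
  subst this
  rw [seg_add, seg_add]
  exact ⟨seg y i a, seg y (i + a + m') b, by simp⟩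

lemma seg_getElem? (y : ℕ → Bool) {i m t : ℕ} (h : t < m) : (seg y i m)[t]? = some (y (i + t)) := by
  simp [seg, h]

lemma seg_congr {y z : ℕ → Bool} {i m : ℕ} (h : ∀ t, t < m → y (i + t) = z (i + t)) :
    seg y i m = seg z i m := by
  unfold seg
  apply List.map_congr_left
  intro t ht
  exact h t (List.mem_range.1 ht)

/-- All factors are factors of concatenations. -/
def InX (W : Set Word) (y : ℕ → Bool) : Prop := ∀ i m, ∃ u ∈ Conc W, seg y i m <:+: u

lemma InX.mono {W' : Set Word} (h : W' ⊆ Conc W) {y : ℕ → Bool} (hy : InX W' y) : InX W y := by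
  intro i m
  obtain ⟨u, hu, hu'⟩ := hy i m
  exact ⟨u, conc_sub h hu, hu'⟩

lemma agree {y z : ℕ → Bool} {i M : ℕ} {t1 v t3 c1 c3 : Word} (hy : seg y i M = t1 ++ v ++ t3)
    (hz : seg z i M = c1 ++ v ++ c3) (h1 : c1.length = t1.length)
    (t : ℕ) (ht : t1.length ≤ t) (ht' : t + t3.length < M) : z (i + t) = y (i + t) := by
  have hlen := congrArg List.length hy
  simp only [seg_length, List.length_append] at hlen
  have htM : t < M := by omega
  have e1 : (seg y i M)[t]? = v[t - t1.length]? := by
    rw [hy, List.append_assoc, List.getElem?_append_right ht, List.getElem?_append_left (by omega)]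
  have e2 : (seg z i M)[t]? = v[t - t1.length]? := by
    rw [hz, List.append_assoc, List.getElem?_append_right (by omega), h1,
      List.getElem?_append_left (by omega)]
  rw [seg_getElem? y htM] at e1
  rw [seg_getElem? z htM] at e2
  rw [← e1] at e2
  simpa using e2

/-- An infinite word with given blocks. -/
lemma exists_blocks (s : Word) (N : ℕ) (hN : 0 < N) (c : ℕ → Word) (hc : ∀ q, (c q).length = N) :
    ∃ y : ℕ → Bool, seg y 0 s.length = s ∧ ∀ q, seg y (s.length + q * N) N = c q := by
  refine ⟨fun t => if t < s.length then s.getD t false else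
    (c ((t - s.length) / N)).getD ((t - s.length) % N) false, ?_, fun q => ?_⟩
  · apply List.ext_getElem?
    intro t
    by_cases ht : t < s.length
    · rw [seg_getElem? _ ht]
      simp [ht]
    · rw [List.getElem?_eq_none (by simp; omega), List.getElem?_eq_none (by omega)]
  · apply List.ext_getElem?
    intro t
    by_cases ht : t < N
    · rw [seg_getElem? _ ht]
      have h1 : ¬ (s.length + q * N + t < s.length) := by omega
      have h2 : s.length + q * N + t - s.length = t + q * N := by omega
      have h3 : (t + q * N) / N = q := by
        rw [Nat.add_mul_div_right _ _ hN, Nat.div_eq_of_lt ht, zero_add]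
      have h4 : (t + q * N) % N = t := by
        rw [Nat.add_mul_mod_self_right, Nat.mod_eq_of_lt ht]
      rw [if_neg h1, h2, h3, h4]
      have h5 : t < (c q).length := by rw [hc]; exact ht
      simp [h5]
    · rw [List.getElem?_eq_none (by simp; omega), List.getElem?_eq_none (by rw [hc]; omega)]

/-- The number of differences before `m`. -/
def ham (y z : ℕ → Bool) (m : ℕ) : ℕ := ((range m).filter fun t => y t ≠ z t).card

/-- Passing to the next level with few changes. -/
lemma step_up (A : Level) (j : ℕ) (y : ℕ → Bool) (hy : InX A.W y) :
    ∃ y' : ℕ → Bool, InX (A.next j).W y' ∧ (∀ t, 4 * t < A.N j → y' t = y t) ∧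
      ∀ m, 2 ^ j * ham y y' m ≤ m := by
  set N := A.N j with hN
  set p := A.p with hp
  set D := Dd A.n with hD
  have hB : A.B = p.length + 4 * D + 1 := rfl
  have hNB : N = 64 * (2 ^ j * A.B) := rfl
  have hNge := A.N_ge j
  rw [← hN] at hNge
  have hNpos : 0 < N := by omega
  set a := 32 * (2 ^ j * A.B) with ha
  have haN : 2 * a = N := by omega
  -- the beginning
  obtain ⟨u0, hu0, hs0⟩ := hy 0 a
  obtain ⟨g, v, t3, c3, h1, h2, h3, h4, h5⟩ := A.lev.align_end u0 hu0 (seg y 0 a) hs0
    (by rw [seg_length]; omega) (N - p.length - a) (by omega)
  -- the blocks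
  have hblock : ∀ q : ℕ, ∃ c t1 w t3 c1 c3, c ∈ Conc A.W ∧
      seg y (a + q * N + p.length) (N - p.length) = t1 ++ w ++ t3 ∧ c = c1 ++ w ++ c3 ∧
      c1.length = t1.length ∧ c3.length = t3.length ∧ t1.length ≤ D ∧ t3.length ≤ D := by
    intro q
    obtain ⟨u, hu, hs⟩ := hy (a + q * N + p.length) (N - p.length)
    exact A.lev.align_both u hu _ hs (by rw [seg_length]; omega)
  choose c t1 w t3' c1 c3' b1 b2 b3 b4 b5 b6 b7 using hblock
  have hclen : ∀ q, (c q).length = N - p.length := by
    intro q
    have e1 := congrArg List.length (b2 q)
    have e2 := congrArg List.length (b3 q)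
    have e3 := b4 q
    have e4 := b5 q
    simp only [seg_length, List.length_append] at e1 e2
    omega
  have hslen : (v ++ c3).length = a := by
    have e1 := congrArg List.length h2
    simp only [seg_length, List.length_append] at e1 ⊢
    omega
  obtain ⟨y', hy0, hyq⟩ := exists_blocks (v ++ c3) N hNpos (fun q => p ++ c q) (by
    intro q
    rw [List.length_append, hclen]
    omega)
  rw [hslen] at hy0 hyq
  -- agreement
  have ag1 : ∀ t, t + D < a → y' t = y t := by
    intro t ht
    have := agree (y := y) (z := y') (i := 0) (M := a) (t1 := []) (v := v) (t3 := t3) (c1 := [])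
      (c3 := c3) (by simpa using h2) (by simpa using hy0) rfl t (by simp) (by omega)
    simpa using this
  have ag2 : ∀ q r, p.length + D ≤ r → r + D < N → y' (a + q * N + r) = y (a + q * N + r) := by
    intro q r hr hr'
    have e0 : seg y' (a + q * N + p.length) (N - p.length) = c q := by
      have e := hyq q
      have e1 : N = p.length + (N - p.length) := by omega
      have e2 := (congrArg (seg y' (a + q * N)) e1).symm.trans e
      rw [seg_add] at e2
      exact (List.append_inj e2 (by simp)).2
    have e6 := b6 q
    have e7 := b7 q
    have := agree (b2 q) (e0.trans (b3 q)) (b4 q) (r - p.length) (by omega) (by omega)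
    have e8 : a + q * N + p.length + (r - p.length) = a + q * N + r := by omega
    rwa [e8] at this
  refine ⟨y', ?_, ?_, ?_⟩
  · -- in the next subshift
    have hQ : ∀ Q : ℕ, (p ++ g) ++ seg y' 0 (a + Q * N) ∈ Conc (A.next j).W := by
      intro Q
      induction Q with
      | zero =>
        rw [zero_mul, add_zero, hy0]
        apply conc_mem
        refine ⟨g ++ (v ++ c3), h1, by simp [p], Or.inl ?_⟩
        rw [List.length_append, List.length_append, h5, hslen]
        omega
      | succ Q ih =>
        have e1 : a + (Q + 1) * N = (a + Q * N) + N := by ring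
        rw [e1, seg_add, ← List.append_assoc]
        apply conc_append ih
        rw [zero_add, hyq]
        apply conc_mem
        refine ⟨c Q, b1 Q, rfl, Or.inl ?_⟩
        rw [List.length_append, hclen]
        omega
    intro i m
    refine ⟨_, hQ (i + m), ?_⟩
    have h6 : seg y' i m <:+: seg y' 0 (a + (i + m) * N) := by
      apply seg_infix _ (Nat.zero_le _)
      have : (i + m) * 1 ≤ (i + m) * N := Nat.mul_le_mul_left _ hNpos
      omega
    exact h6.trans (List.suffix_append _ _).isInfix
  · intro t ht
    apply ag1
    omega
  · intro m
    by_cases hm : m + D ≤ a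
    · have : ham y y' m = 0 := by
        unfold ham
        rw [card_eq_zero, filter_eq_empty_iff]
        intro t ht
        rw [mem_range] at ht
        rw [not_not]
        exact (ag1 t (by omega)).symm
      rw [this]
      simp
    · have hcard : ham y y' m ≤ D + (m / N + 1) * (p.length + 2 * D) := by
        have hsub : ((range m).filter fun t => y t ≠ y' t) ⊆ Ico (a - D) a ∪
            (range (m / N + 1)).biUnion fun q => Ico (a + q * N) (a + q * N + (p.length + D)) ∪
              Ico (a + q * N + (N - D)) (a + q * N + N) := by
          intro t ht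
          rw [mem_filter, mem_range] at ht
          rw [mem_union]
          by_cases hta : t < a
          · left
            rw [mem_Ico]
            refine ⟨?_, hta⟩
            by_contra hcon
            exact ht.2 (ag1 t (by omega)).symm
          · right
            rw [mem_biUnion]
            have e1 := Nat.div_add_mod (t - a) N
            have e2 := Nat.mod_lt (t - a) hNpos
            have e3 : (t - a) / N ≤ m / N := Nat.div_le_div_right (by omega)
            refine ⟨(t - a) / N, mem_range.2 (by omega), ?_⟩
            set q := (t - a) / N with hq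
            set r := (t - a) % N with hr
            have e4 : t = a + q * N + r := by
              rw [mul_comm q N]
              omega
            rw [mem_union, mem_Ico, mem_Ico]
            by_contra hcon
            push Not at hcon
            apply ht.2
            rw [e4]
            refine (ag2 q r ?_ ?_).symm
            · by_contra h
              have := (hcon.1 (by omega))
              omega
            · by_contra h
              have := (hcon.2 (by omega))
              omega
        refine (card_le_card hsub).trans ((card_union_le _ _).trans ?_)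
        apply Nat.add_le_add
        · rw [Nat.card_Ico]
          omega
        · refine card_biUnion_le.trans ?_
          refine (sum_le_card_nsmul _ _ (p.length + 2 * D) ?_).trans ?_
          · intro q _
            refine (card_union_le _ _).trans ?_
            rw [Nat.card_Ico, Nat.card_Ico]
            omega
          · rw [card_range, smul_eq_mul]
      have hm4 : N < 4 * m := by omega
      apply Nat.le_of_mul_le_mul_left _ hNpos
      calc N * (2 ^ j * ham y y' m) ≤ N * (2 ^ j * (D + (m / N + 1) * (p.length + 2 * D))) :=
            Nat.mul_le_mul_left _ (Nat.mul_le_mul_left _ hcard)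
        _ ≤ N * (2 ^ j * ((m / N + 2) * A.B)) := by
            apply Nat.mul_le_mul_left
            apply Nat.mul_le_mul_left
            have e1 : (m / N + 2) * A.B = A.B + (m / N + 1) * A.B := by ring
            rw [e1]
            apply Nat.add_le_add (by omega)
            apply Nat.mul_le_mul_left
            omega
        _ = 2 ^ j * A.B * (N * (m / N) + 2 * N) := by ring
        _ ≤ 2 ^ j * A.B * (m + 2 * N) := by
            apply Nat.mul_le_mul_left
            have := Nat.mul_div_le m N
            omega
        _ ≤ 2 ^ j * A.B * (64 * m) := by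
            apply Nat.mul_le_mul_left
            omega
        _ = N * m := by
            rw [hNB]
            ring

end Pool.Agent.X238.Asp
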