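import Pool.Agent.X238.Asp.Levels

/-!
# The subshift: limits, recurrence
-/

namespace Pool.Agent.X238.Asp

open Finset

lemma lv_succ_sub (j : ℕ) : (lv (j + 1)).W ⊆ Conc (lv j).W :=
  next_sub (lv j).lev _

lemma InX.anti {j j' : ℕ} (h : j ≤ j') {y : ℕ → Bool} (hy : InX (lv j').W y) :
    InX (lv j).W y := by
  induction j', h using Nat.le_induction with
  | base => exact hy
  | succ m _ ih => exact ih (InX.mono (lv_succ_sub m) hy)

lemma lv_N_gt (j : ℕ) : 64 * (j + 1) ≤ (lv j).N j := by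
  unfold Level.N
  apply Nat.mul_le_mul_left
  have h1 : j + 1 ≤ 2 ^ j := Nat.lt_two_pow_self
  have h2 : 1 ≤ (lv j).B := by
    unfold Level.B
    omega
  calc j + 1 ≤ 2 ^ j := h1
    _ = 2 ^ j * 1 := (mul_one _).symm
    _ ≤ 2 ^ j * (lv j).B := Nat.mul_le_mul_left _ h2

lemma lv_n_ge (j : ℕ) : j ≤ (lv j).n := by
  rcases j with _ | j
  · exact Nat.zero_le _
  · have := lv_N_gt j
    show j + 1 ≤ (lv j).N j
    omega

/-- The subshift. -/
def XX : Set (ℕ → Bool) := {y | ∀ j, InX (lv j).W y}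

lemma ham_triangle (x y z : ℕ → Bool) (m : ℕ) : ham x z m ≤ ham x y m + ham y z m := by
  unfold ham
  refine (card_le_card ?_).trans (card_union_le _ _)
  intro t ht
  rw [mem_filter] at ht
  rw [mem_union, mem_filter, mem_filter]
  by_cases h : x t = y t
  · right
    exact ⟨ht.1, by rw [← h]; exact ht.2⟩
  · left
    exact ⟨ht.1, h⟩

lemma ham_congr {x y y' : ℕ → Bool} {m : ℕ} (h : ∀ t, t < m → y t = y' t) :
    ham x y m = ham x y' m := by
  unfold ham
  congr 1
  apply filter_congr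
  intro t ht
  rw [h t (mem_range.1 ht)]

/-- Points of the subshift close to a given infinite concatenation. -/
lemma limit (k : ℕ) (y0 : ℕ → Bool) (hy0 : InX (lv k).W y0) :
    ∃ y ∈ XX, ∀ m : ℕ, 2 ^ k * ham y0 y m ≤ 2 * m := by
  let F : ∀ i : ℕ, {y : ℕ → Bool // InX (lv (k + i)).W y} := fun i =>
    Nat.rec (motive := fun i => {y : ℕ → Bool // InX (lv (k + i)).W y}) ⟨y0, hy0⟩
      (fun i y => ⟨Classical.choose (step_up (lv (k + i)) (k + i) y.1 y.2),
        (Classical.choose_spec (step_up (lv (k + i)) (k + i) y.1 y.2)).1⟩) i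
  have hF0 : (F 0).1 = y0 := rfl
  have hF1 : ∀ i t, 4 * t < (lv (k + i)).N (k + i) → (F (i + 1)).1 t = (F i).1 t := fun i =>
    (Classical.choose_spec (step_up (lv (k + i)) (k + i) (F i).1 (F i).2)).2.1
  have hF2 : ∀ i m, 2 ^ (k + i) * ham (F i).1 (F (i + 1)).1 m ≤ m := fun i =>
    (Classical.choose_spec (step_up (lv (k + i)) (k + i) (F i).1 (F i).2)).2.2
  have hstab : ∀ t i, t ≤ i → (F i).1 t = (F t).1 t := by
    intro t i hi
    induction i, hi using Nat.le_induction with
    | base => rfl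
    | succ i hi ih =>
      rw [hF1 i t, ih]
      have := lv_N_gt (k + i)
      omega
  refine ⟨fun t => (F t).1 t, ?_, ?_⟩
  · intro j i m
    have h1 : seg (fun t => (F t).1 t) i m = seg (F (i + m + j)).1 i m := by
      apply seg_congr
      intro t ht
      exact (hstab (i + t) (i + m + j) (by omega)).symm
    rw [h1]
    exact InX.anti (by omega) (F (i + m + j)).2 i m
  · intro m
    have h1 : ham y0 (fun t => (F t).1 t) m = ham (F 0).1 (F m).1 m := by
      rw [hF0]
      apply ham_congr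
      intro t ht
      exact (hstab t m ht.le).symm
    rw [h1]
    have h2 : ∀ J, ham (F 0).1 (F J).1 m ≤ ∑ i ∈ range J, ham (F i).1 (F (i + 1)).1 m := by
      intro J
      induction J with
      | zero => simp [ham]
      | succ J ih =>
        rw [sum_range_succ]
        exact (ham_triangle _ (F J).1 _ m).trans (Nat.add_le_add_right ih _)
    have h3 : (2 : ℝ) ^ k * (ham (F 0).1 (F m).1 m : ℝ) ≤ 2 * m := by
      have h4 : (ham (F 0).1 (F m).1 m : ℝ) ≤
          ∑ i ∈ range m, (ham (F i).1 (F (i + 1)).1 m : ℝ) := by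
        exact_mod_cast h2 m
      have h5 : ∀ i, (2 : ℝ) ^ k * (ham (F i).1 (F (i + 1)).1 m : ℝ) ≤ m * (1 / 2) ^ i := by
        intro i
        have h6 : (2 : ℝ) ^ (k + i) * (ham (F i).1 (F (i + 1)).1 m : ℝ) ≤ m := by
          exact_mod_cast hF2 i m
        rw [pow_add] at h6
        have h7 : (0 : ℝ) < (1 / 2) ^ i := by positivity
        calc (2 : ℝ) ^ k * (ham (F i).1 (F (i + 1)).1 m : ℝ)
            = (2 ^ k * 2 ^ i * (ham (F i).1 (F (i + 1)).1 m : ℝ)) * (1 / 2) ^ i := by
              rw [one_div, inv_pow]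
              field_simp
          _ ≤ m * (1 / 2) ^ i := mul_le_mul_of_nonneg_right h6 h7.le
      calc (2 : ℝ) ^ k * (ham (F 0).1 (F m).1 m : ℝ)
          ≤ 2 ^ k * ∑ i ∈ range m, (ham (F i).1 (F (i + 1)).1 m : ℝ) :=
            mul_le_mul_of_nonneg_left h4 (by positivity)
        _ = ∑ i ∈ range m, 2 ^ k * (ham (F i).1 (F (i + 1)).1 m : ℝ) := mul_sum _ _ _
        _ ≤ ∑ i ∈ range m, (m : ℝ) * (1 / 2) ^ i := sum_le_sum fun i _ => h5 i
        _ = m * ∑ i ∈ range m, (1 / 2 : ℝ) ^ i := (mul_sum _ _ _).symm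
        _ ≤ m * 2 := mul_le_mul_of_nonneg_left (sum_geometric_two_le m) (by positivity)
        _ = 2 * m := by ring
    exact_mod_cast h3

lemma exists_inX (k : ℕ) : ∃ y, InX (lv k).W y := by
  obtain ⟨w, hw, hw'⟩ := (lv k).lev.ex0
  obtain ⟨y, _, h2⟩ := exists_blocks [] (lv k).n (lv k).lev.pos (fun _ => w) (fun _ => hw')
  simp only [List.length_nil, zero_add] at h2
  refine ⟨y, ?_⟩
  have hQ : ∀ Q : ℕ, seg y 0 (Q * (lv k).n) ∈ Conc (lv k).W := by
    intro Q
    induction Q with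
    | zero =>
      rw [zero_mul]
      exact conc_nil _
    | succ Q ih =>
      have e1 : (Q + 1) * (lv k).n = Q * (lv k).n + (lv k).n := by ring
      rw [e1, seg_add]
      apply conc_append ih
      rw [zero_add, h2]
      exact conc_mem hw
  intro i m
  refine ⟨_, hQ (i + m), seg_infix _ (Nat.zero_le _) ?_⟩
  have : (i + m) * 1 ≤ (i + m) * (lv k).n := Nat.mul_le_mul_left _ (lv k).lev.pos
  omega

lemma XX_nonempty : XX.Nonempty := by
  obtain ⟨y0, hy0⟩ := exists_inX 0
  obtain ⟨y, hy, _⟩ := limit 0 y0 hy0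
  exact ⟨y, hy⟩

lemma infix_seg {y : ℕ → Bool} {M : ℕ} {s : Word} (h : s <:+: seg y 0 M) :
    ∃ i, seg y i s.length = s := by
  obtain ⟨a, b, hab⟩ := h
  refine ⟨a.length, ?_⟩
  have hM : M = a.length + (s.length + b.length) := by
    have := congrArg List.length hab
    simp only [List.length_append, seg_length] at this
    omega
  subst hM
  rw [seg_add, seg_add, List.append_assoc, zero_add] at hab
  have h1 := (List.append_inj hab (by simp)).2
  exact ((List.append_inj h1 (by simp)).1).symm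

/-- The words of all levels occur in all points. -/
lemma word_occurs {y : ℕ → Bool} (hy : y ∈ XX) (j : ℕ) {w : Word} (hw : w ∈ (lv j).W) :
    ∃ i, seg y i w.length = w := by
  obtain ⟨u, hu, hu'⟩ := hy (j + 1) 0 (2 * ((lv (j + 1)).n + 1))
  obtain ⟨w2, hw2, hw2'⟩ := (lv (j + 1)).lev.long_infix u hu _ hu' (by simp)
  obtain ⟨v, _, rfl, _⟩ := hw2
  have h1 : w <:+: (lv j).p := infix_pre _ hw
  have h2 : w <:+: seg y 0 (2 * ((lv (j + 1)).n + 1)) :=
    (h1.trans (List.prefix_append _ _).isInfix).trans hw2'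
  exact infix_seg h2

/-- Initial segments of points of the subshift occur in all points. -/
lemma occurs {x y : ℕ → Bool} (hx : x ∈ XX) (hy : y ∈ XX) (m : ℕ) :
    ∃ i, seg y i m = seg x 0 m := by
  obtain ⟨u, hu, hu'⟩ := hx m 0 m
  obtain ⟨w, hw, w', hw', h1⟩ := (lv m).lev.short_infix u hu _ hu' (by simpa using lv_n_ge m)
  have hBN := (lv m).N_ge m
  have hB : (lv m).B = (lv m).p.length + 4 * Dd (lv m).n + 1 := rfl
  have hD : Dd (lv m).n = (lv m).n * (lv m).n + 2 * ((lv m).n + 1) := rfl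
  have l1 := (lv m).lev.le hw
  have l2 := (lv m).lev.le hw'
  obtain ⟨g, hg, hg'⟩ := (lv m).lev.fill
    ((lv m).N m - (lv m).p.length - w.length - w'.length) (by omega)
  have hv : (lv m).p ++ ((w ++ w') ++ g) ∈ (lv (m + 1)).W := by
    refine ⟨(w ++ w') ++ g, conc_append (conc_append (conc_mem hw) (conc_mem hw')) hg, rfl,
      Or.inl ?_⟩
    simp only [List.length_append]
    omega
  obtain ⟨i, hi⟩ := word_occurs hy (m + 1) hv
  have h2 : seg x 0 m <:+: seg y 0 (i + ((lv m).p ++ ((w ++ w') ++ g)).length) := by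
    have h3 : seg x 0 m <:+: (lv m).p ++ ((w ++ w') ++ g) :=
      (h1.trans (List.prefix_append _ _).isInfix).trans (List.suffix_append _ _).isInfix
    rw [← hi] at h3
    exact h3.trans (seg_infix _ (Nat.zero_le _) (by omega))
  obtain ⟨i', hi'⟩ := infix_seg h2
  rw [seg_length] at hi'
  exact ⟨i', hi'⟩

lemma shift_mem {y : ℕ → Bool} (hy : y ∈ XX) : (fun t => y (t + 1)) ∈ XX := by
  intro j i m
  obtain ⟨u, hu, hu'⟩ := hy j (i + 1) m
  refine ⟨u, hu, ?_⟩
  have : seg (fun t => y (t + 1)) i m = seg y (i + 1) m := by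
    unfold seg
    apply List.map_congr_left
    intro t _
    show y (i + t + 1) = y (i + 1 + t)
    congr 1
    omega
  rw [this]
  exact hu'

lemma isClosed_XX : IsClosed XX := by
  rw [← closure_subset_iff_isClosed]
  intro y hy j i m
  rw [mem_closure_iff] at hy
  obtain ⟨z, hz1, hz2⟩ := hy (PiNat.cylinder y (i + m)) (PiNat.isOpen_cylinder _ y (i + m))
    (PiNat.self_mem_cylinder y (i + m))
  rw [PiNat.mem_cylinder_iff] at hz1
  obtain ⟨u, hu, hu'⟩ := hz2 j i m
  refine ⟨u, hu, ?_⟩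
  rw [seg_congr (z := z)]
  · exact hu'
  · intro t ht
    exact (hz1 (i + t) (by omega)).symm

end Pool.Agent.X238.Asp
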