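import Pool.Agent.X238.Asp.Limit
import Pool.Agent.X238.Asp.Defs

/-!
# A minimal subshift with the average shadowing property
-/

namespace Pool.Agent.X238.Asp

open Finset Filter Topology

attribute [local instance] PiNat.metricSpace

/-- The distance is at least `2 ^ (-j)` if the letters at `j` differ. -/
lemma dist_ge {x y : ℕ → Bool} {j : ℕ} (h : x j ≠ y j) : (1 / 2 : ℝ) ^ j ≤ dist x y := by
  by_contra hcon
  exact h (PiNat.apply_eq_of_dist_lt (not_le.1 hcon) le_rfl)

/-- The distance is at most `2 ^ (-K)` plus the number of differences before `K`. -/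
lemma dist_le_count (x y : ℕ → Bool) (K : ℕ) :
    dist x y ≤ (1 / 2 : ℝ) ^ K + ∑ j ∈ range K, (if x j ≠ y j then (1 : ℝ) else 0) := by
  have hpos : (0 : ℝ) < (1 / 2) ^ K := by positivity
  have hnn : ∀ j ∈ range K, (0 : ℝ) ≤ (if x j ≠ y j then (1 : ℝ) else 0) := by
    intro j _
    split_ifs <;> norm_num
  by_cases h : ∀ j < K, x j = y j
  · have h1 : dist x y ≤ (1 / 2 : ℝ) ^ K :=
      PiNat.mem_cylinder_iff_dist_le.1 (PiNat.mem_cylinder_iff.2 h)
    have := sum_nonneg hnn
    linarith
  · push Not at h
    obtain ⟨j, hj, hj'⟩ := h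
    have h1 : dist x y ≤ 1 := PiNat.dist_le_one x y
    have h2 := single_le_sum hnn (mem_range.2 hj)
    rw [if_pos hj'] at h2
    linarith

/-- The shift on the subshift. -/
def shift (y : XX) : XX := ⟨fun t => y.1 (t + 1), shift_mem y.2⟩

lemma shift_iterate (i : ℕ) (y : XX) (t : ℕ) : (shift^[i] y).1 t = y.1 (t + i) := by
  induction i generalizing t with
  | zero => rfl
  | succ i ih =>
    rw [Function.iterate_succ_apply']
    show (shift^[i] y).1 (t + 1) = _
    rw [ih, show t + (i + 1) = t + 1 + i by omega]

lemma continuous_shift : Continuous shift := by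
  apply Continuous.subtype_mk
  apply continuous_pi
  intro t
  exact (continuous_apply (t + 1)).comp continuous_subtype_val

instance : CompactSpace XX := isCompact_iff_compactSpace.1 isClosed_XX.isCompact

lemma minimal_shift : IsMinimalMap shift := by
  intro A hA hne hinv
  obtain ⟨y, hy⟩ := hne
  have horb : ∀ i, shift^[i] y ∈ A := by
    intro i
    induction i with
    | zero => exact hy
    | succ i ih =>
      rw [Function.iterate_succ_apply']
      exact hinv _ ih
  apply Set.eq_univ_of_forall
  intro x
  rw [← hA.closure_eq, Metric.mem_closure_iff]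
  intro ε hε
  obtain ⟨m, hm⟩ := exists_pow_lt_of_lt_one hε (by norm_num : (1 / 2 : ℝ) < 1)
  obtain ⟨i, hi⟩ := occurs x.2 y.2 m
  refine ⟨shift^[i] y, horb i, lt_of_le_of_lt ?_ hm⟩
  show dist x.1 (shift^[i] y).1 ≤ (1 / 2) ^ m
  apply PiNat.mem_cylinder_iff_dist_le.1
  rw [PiNat.mem_cylinder_iff]
  intro t ht
  have h1 := seg_getElem? y.1 (i := i) ht
  have h2 := seg_getElem? x.1 (i := 0) ht
  rw [hi, h2] at h1
  rw [shift_iterate, add_comm t i]
  simp only [Option.some.injEq, zero_add] at h1
  exact h1

instance : Nontrivial XX := by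
  obtain ⟨y, hy⟩ := XX_nonempty
  obtain ⟨i, hi⟩ := word_occurs hy 0 (w := [false]) (Or.inl rfl)
  obtain ⟨j, hj⟩ := word_occurs hy 0 (w := [true]) (Or.inl rfl)
  refine ⟨⟨shift^[i] ⟨y, hy⟩, shift^[j] ⟨y, hy⟩, fun h => ?_⟩⟩
  have h1 := congrArg (fun z : XX => z.1 0) h
  simp only [shift_iterate, zero_add] at h1
  simp only [seg, List.length_singleton, List.range_one, List.map_cons, List.map_nil, add_zero,
    List.cons.injEq, and_true] at hi hj
  rw [hi, hj] at h1
  exact Bool.false_ne_true h1

/-- In an average-pseudo-orbit the letters of the points are mostly the first letters of the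
later points. -/
lemma count_letter {δ : ℝ} {x : ℕ → XX} {n : ℕ}
    (hx : ∀ k : ℕ, ∑ i ∈ range n, dist (shift (x (i + k))) (x (i + k + 1)) ≤ δ * n)
    (j : ℕ) : ∀ k : ℕ, (((range n).filter fun i =>
      (x (i + k + j)).1 0 ≠ (x (i + k)).1 j).card : ℝ) ≤ (2 ^ j - 1) * (δ * n) := by
  induction j with
  | zero =>
    intro k
    simp
  | succ j ih =>
    intro k
    have h1 : ((range n).filter fun i => (x (i + k + (j + 1))).1 0 ≠ (x (i + k)).1 (j + 1)) ⊆
        ((range n).filter fun i => (x (i + (k + 1) + j)).1 0 ≠ (x (i + (k + 1))).1 j) ∪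
        ((range n).filter fun i => (shift (x (i + k))).1 j ≠ (x (i + k + 1)).1 j) := by
      intro i hi
      rw [mem_filter] at hi
      rw [mem_union, mem_filter, mem_filter]
      have e1 : i + k + (j + 1) = i + (k + 1) + j := by omega
      have e2 : i + k + 1 = i + (k + 1) := by omega
      rw [e1] at hi
      rw [e2]
      by_cases h : (shift (x (i + k))).1 j = (x (i + (k + 1))).1 j
      · left
        refine ⟨hi.1, ?_⟩
        rw [← h]
        exact hi.2
      · right
        exact ⟨hi.1, h⟩
    have h2 : (((range n).filter fun i =>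
        (shift (x (i + k))).1 j ≠ (x (i + k + 1)).1 j).card : ℝ) ≤ 2 ^ j * (δ * n) := by
      rw [card_filter]
      push_cast
      calc ∑ i ∈ range n, (if (shift (x (i + k))).1 j ≠ (x (i + k + 1)).1 j then (1 : ℝ) else 0)
          ≤ ∑ i ∈ range n, 2 ^ j * dist (shift (x (i + k))) (x (i + k + 1)) := by
            apply sum_le_sum
            intro i _
            split_ifs with h
            · have h3 : (1 / 2 : ℝ) ^ j ≤ dist (shift (x (i + k))) (x (i + k + 1)) := dist_ge h
              have h4 : (2 : ℝ) ^ j * (1 / 2) ^ j = 1 := by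
                rw [← mul_pow]
                norm_num
              calc (1 : ℝ) = 2 ^ j * (1 / 2) ^ j := h4.symm
                _ ≤ _ := mul_le_mul_of_nonneg_left h3 (by positivity)
            · positivity
        _ = 2 ^ j * ∑ i ∈ range n, dist (shift (x (i + k))) (x (i + k + 1)) :=
            (mul_sum _ _ _).symm
        _ ≤ 2 ^ j * (δ * n) := mul_le_mul_of_nonneg_left (hx k) (by positivity)
    have h3 := ih (k + 1)
    have h4 : (((range n).filter fun i =>
        (x (i + k + (j + 1))).1 0 ≠ (x (i + k)).1 (j + 1)).card : ℝ) ≤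
        (((range n).filter fun i =>
          (x (i + (k + 1) + j)).1 0 ≠ (x (i + (k + 1))).1 j).card : ℝ) +
        (((range n).filter fun i =>
          (shift (x (i + k))).1 j ≠ (x (i + k + 1)).1 j).card : ℝ) := by
      exact_mod_cast (card_le_card h1).trans (card_union_le _ _)
    rw [pow_succ]
    linarith

/-- The blocks of length `L` of the sequence of first letters can be replaced by
concatenations. -/
lemma block_approx (A : Level) (hA : ∀ y ∈ XX, InX A.W y) (x : ℕ → XX) (L : ℕ)
    (hL : 4 * Dd A.n ≤ L) (hL0 : 0 < L) :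
    ∃ y0 : ℕ → Bool, InX A.W y0 ∧ ∀ n : ℕ,
      ham (fun i => (x i).1 0) y0 n ≤ (n / L + 1) * (2 * Dd A.n) +
        L * ∑ j ∈ range L, ((range n).filter fun i => (x (i + j)).1 0 ≠ (x i).1 j).card := by
  set D := Dd A.n with hD
  set z : ℕ → Bool := fun i => (x i).1 0 with hz
  have hblock : ∀ q : ℕ, ∃ c : Word, c ∈ Conc A.W ∧ c.length = L ∧
      ((∀ j < L, z (q * L + j) = (x (q * L)).1 j) →
        ∃ t1 v t3 c1 c3, seg z (q * L) L = t1 ++ v ++ t3 ∧ c = c1 ++ v ++ c3 ∧
      c1.length = t1.length ∧ c3.length = t3.length ∧ t1.length ≤ D ∧ t3.length ≤ D) := by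
    intro q
    by_cases hq : ∀ j < L, z (q * L + j) = (x (q * L)).1 j
    · have h1 : seg z (q * L) L = seg (x (q * L)).1 0 L := by
        unfold seg
        apply List.map_congr_left
        intro t ht
        rw [hq t (List.mem_range.1 ht), zero_add]
      obtain ⟨u, hu, hu'⟩ := hA _ (x (q * L)).2 0 L
      obtain ⟨c, t1, v, t3, c1, c3, b1, b2, b3, b4, b5, b6, b7⟩ :=
        A.lev.align_both u hu _ hu' (by simpa using hL)
      refine ⟨c, b1, ?_, fun _ => ⟨t1, v, t3, c1, c3, h1.trans b2, b3, b4, b5, b6, b7⟩⟩
      have e1 := congrArg List.length b2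
      have e2 := congrArg List.length b3
      simp only [seg_length, List.length_append] at e1 e2
      omega
    · obtain ⟨c, hc, hc'⟩ := A.lev.fill L (by
        have : D = A.n * A.n + 2 * (A.n + 1) := rfl
        omega)
      exact ⟨c, hc, hc', fun h => absurd h hq⟩
  choose c hc1 hc2 hc3 using hblock
  obtain ⟨y0, _, hy0⟩ := exists_blocks [] L hL0 c hc2
  simp only [List.length_nil, zero_add] at hy0
  refine ⟨y0, ?_, ?_⟩
  · have hQ : ∀ Q : ℕ, seg y0 0 (Q * L) ∈ Conc A.W := by
      intro Q
      induction Q with
      | zero =>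
        rw [zero_mul]
        exact conc_nil _
      | succ Q ih =>
        have e1 : (Q + 1) * L = Q * L + L := by ring
        rw [e1, seg_add]
        apply conc_append ih
        rw [zero_add, hy0]
        exact hc1 Q
    intro i m
    refine ⟨_, hQ (i + m), seg_infix _ (Nat.zero_le _) ?_⟩
    have : (i + m) * 1 ≤ (i + m) * L := Nat.mul_le_mul_left _ hL0
    omega
  · intro n
    set bad := (range n).filter fun i => ∃ j < L, (x (i + j)).1 0 ≠ (x i).1 j with hbad
    have hbadcard : bad.card ≤
        ∑ j ∈ range L, ((range n).filter fun i => (x (i + j)).1 0 ≠ (x i).1 j).card := by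
      have : bad ⊆ (range L).biUnion fun j =>
          (range n).filter fun i => (x (i + j)).1 0 ≠ (x i).1 j := by
        intro i hi
        rw [hbad, mem_filter] at hi
        obtain ⟨hi1, j, hj, hj'⟩ := hi
        rw [mem_biUnion]
        exact ⟨j, mem_range.2 hj, mem_filter.2 ⟨hi1, hj'⟩⟩
      exact (card_le_card this).trans card_biUnion_le
    have hsub : ((range n).filter fun t => z t ≠ y0 t) ⊆
        ((range (n / L + 1)).biUnion fun q => Ico (q * L) (q * L + D) ∪
          Ico (q * L + (L - D)) (q * L + L)) ∪ bad.biUnion fun i => Ico i (i + L) := by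
      intro t ht
      rw [mem_filter, mem_range] at ht
      have e1 := Nat.div_add_mod t L
      have e2 := Nat.mod_lt t hL0
      have e3 : t / L ≤ n / L := Nat.div_le_div_right (by omega)
      set q := t / L with hq
      set r := t % L with hr
      have e4 : t = q * L + r := by
        rw [mul_comm q L]
        omega
      rw [mem_union]
      by_cases hqb : q * L ∈ bad
      · right
        rw [mem_biUnion]
        exact ⟨q * L, hqb, mem_Ico.2 ⟨by omega, by omega⟩⟩
      · left
        rw [mem_biUnion]
        refine ⟨q, mem_range.2 (by omega), ?_⟩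
        rw [mem_union, mem_Ico, mem_Ico]
        have hgood : ∀ j < L, z (q * L + j) = (x (q * L)).1 j := by
          intro j hj
          by_contra hcon
          exact hqb (mem_filter.2 ⟨mem_range.2 (by omega), j, hj, hcon⟩)
        obtain ⟨t1, v, t3, c1, c3, b2, b3, b4, b5, b6, b7⟩ := hc3 q hgood
        by_contra hcon
        push Not at hcon
        apply ht.2
        rw [e4]
        have h1 : D ≤ r := by
          by_contra h
          have := hcon.1 (by omega)
          omega
        have h2 : r + D < L := by
          by_contra h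
          have := hcon.2 (by omega)
          omega
        exact (agree b2 ((hy0 q).trans b3) b4 r (by omega) (by omega)).symm
    unfold ham
    refine (card_le_card hsub).trans ((card_union_le _ _).trans ?_)
    apply Nat.add_le_add
    · refine card_biUnion_le.trans ?_
      refine (sum_le_card_nsmul _ _ (2 * D) ?_).trans ?_
      · intro q _
        refine (card_union_le _ _).trans ?_
        rw [Nat.card_Ico, Nat.card_Ico]
        omega
      · rw [card_range, smul_eq_mul]
    · refine card_biUnion_le.trans ?_
      refine (sum_le_card_nsmul _ _ L ?_).trans ?_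
      · intro i _
        rw [Nat.card_Ico]
        omega
      · rw [smul_eq_mul, mul_comm]
        exact Nat.mul_le_mul_left _ hbadcard

end Pool.Agent.X238.Asp
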