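import Mathlib

/-!
# Concatenations of words of two consecutive lengths
-/

namespace Pool.Agent.X238.Asp

/-- Finite words over the alphabet with two letters. -/
abbrev Word := List Bool

/-- The concatenations of words of `W`. -/
def Conc (W : Set Word) : Set Word := {l | ∃ L : List Word, (∀ w ∈ L, w ∈ W) ∧ L.flatten = l}

lemma conc_nil (W : Set Word) : ([] : Word) ∈ Conc W := ⟨[], by simp, rfl⟩

lemma conc_append {W : Set Word} {u v : Word} (hu : u ∈ Conc W) (hv : v ∈ Conc W) :
    u ++ v ∈ Conc W := by
  obtain ⟨L, hL, rfl⟩ := hu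
  obtain ⟨M, hM, rfl⟩ := hv
  refine ⟨L ++ M, ?_, by simp⟩
  intro w hw
  rcases List.mem_append.1 hw with h | h
  · exact hL w h
  · exact hM w h

lemma conc_mem {W : Set Word} {w : Word} (h : w ∈ W) : w ∈ Conc W :=
  ⟨[w], by simpa using h, by simp⟩

lemma conc_flatten {W : Set Word} (L : List Word) (h : ∀ w ∈ L, w ∈ Conc W) :
    L.flatten ∈ Conc W := by
  induction L with
  | nil => exact conc_nil W
  | cons a L ih =>
    rw [List.flatten_cons]
    exact conc_append (h a (by simp)) (ih fun w hw => h w (by simp [hw]))

lemma conc_sub {W W' : Set Word} (h : W' ⊆ Conc W) : Conc W' ⊆ Conc W := by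
  rintro _ ⟨L, hL, rfl⟩
  exact conc_flatten L fun w hw => h (hL w hw)

/-- `W` is a finite set of words of the lengths `n` and `n + 1`, both of which occur. -/
structure Lev (W : Set Word) (n : ℕ) : Prop where
  pos : 0 < n
  fin : W.Finite
  len : ∀ w ∈ W, w.length = n ∨ w.length = n + 1
  ex0 : ∃ w ∈ W, w.length = n
  ex1 : ∃ w ∈ W, w.length = n + 1

variable {W : Set Word} {n : ℕ}

lemma Lev.le (h : Lev W n) {w : Word} (hw : w ∈ W) : w.length ≤ n + 1 := by
  rcases h.len w hw with h | h <;> omega

lemma Lev.ge (h : Lev W n) {w : Word} (hw : w ∈ W) : n ≤ w.length := by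
  rcases h.len w hw with h | h <;> omega

/-- All large lengths are lengths of concatenations. -/
lemma Lev.fill (h : Lev W n) (m : ℕ) (hm : n * n ≤ m) : ∃ u ∈ Conc W, u.length = m := by
  obtain ⟨w0, hw0, h0⟩ := h.ex0
  obtain ⟨w1, hw1, h1⟩ := h.ex1
  have hr : m % n < n := Nat.mod_lt _ h.pos
  have hq : n ≤ m / n := (Nat.le_div_iff_mul_le h.pos).2 hm
  refine ⟨(List.replicate (m / n - m % n) w0 ++ List.replicate (m % n) w1).flatten, ?_, ?_⟩
  · refine ⟨_, ?_, rfl⟩
    intro w hw
    rcases List.mem_append.1 hw with h | h
    · rw [List.eq_of_mem_replicate h]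
      exact hw0
    · rw [List.eq_of_mem_replicate h]
      exact hw1
  · simp only [List.flatten_append, List.length_append, List.length_flatten, List.map_replicate,
      List.sum_replicate, smul_eq_mul, h0, h1]
    have h2 := Nat.div_add_mod m n
    have h3 : (m / n - m % n) * n + m % n * (n + 1) = n * (m / n) + m % n := by
      have h4 : m % n ≤ m / n := by omega
      obtain ⟨c, hc⟩ := Nat.exists_eq_add_of_le h4
      rw [hc]
      have : m % n + c - m % n = c := by omega
      rw [this]
      ring
    rw [h3, h2]

lemma Lev.prefix_decomp (h : Lev W n) (L : List Word) (hL : ∀ w ∈ L, w ∈ W) (s : Word)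
    (hs : s <+: L.flatten) : ∃ v s1, s = v ++ s1 ∧ v ∈ Conc W ∧ s1.length ≤ n + 1 := by
  induction L generalizing s with
  | nil =>
    have : s = [] := by simpa using hs
    subst this
    exact ⟨[], [], rfl, conc_nil W, by simp⟩
  | cons w L ih =>
    rw [List.flatten_cons] at hs
    have hw : w ∈ W := hL w (by simp)
    by_cases hlen : s.length ≤ w.length
    · exact ⟨[], s, rfl, conc_nil W, hlen.trans (h.le hw)⟩
    · have hp : w <+: s := by
        apply List.prefix_of_prefix_length_le (List.prefix_append w L.flatten) hs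
        omega
      obtain ⟨s', rfl⟩ := hp
      have hs' : s' <+: L.flatten := (List.prefix_append_right_inj w).1 hs
      obtain ⟨v, s1, h1, h2, h3⟩ := ih (fun w hw => hL w (by simp [hw])) s' hs'
      exact ⟨w ++ v, s1, by rw [h1, List.append_assoc], conc_append (conc_mem hw) h2, h3⟩

/-- An infix of a concatenation: a suffix of a word, a concatenation, and a short rest. -/
lemma Lev.infix_decomp (h : Lev W n) (u : Word) (hu : u ∈ Conc W) (s : Word)
    (hs : s <:+: u) (hlen : n + 1 < s.length) :
    ∃ w' s0 v s1, w' ++ s0 ∈ W ∧ s = s0 ++ v ++ s1 ∧ v ∈ Conc W ∧ s1.length ≤ n + 1 := by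
  obtain ⟨L, hL, rfl⟩ := hu
  induction L with
  | nil =>
    have : s = [] := by simpa using hs
    subst this
    simp at hlen
  | cons w L ih =>
    rw [List.flatten_cons] at hs
    have hw : w ∈ W := hL w (by simp)
    obtain ⟨a, b, hab⟩ := hs
    by_cases ha : w.length ≤ a.length
    · apply ih (fun w hw => hL w (by simp [hw]))
      have hp : w <+: a := by
        apply List.prefix_of_prefix_length_le (List.prefix_append w L.flatten) _ ha
        rw [← hab, List.append_assoc]
        exact List.prefix_append _ _
      obtain ⟨a', rfl⟩ := hp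
      refine ⟨a', b, ?_⟩
      have : w ++ (a' ++ s ++ b) = w ++ L.flatten := by
        rw [← hab]
        simp
      exact List.append_cancel_left this
    · have hp : a <+: w := by
        apply List.prefix_of_prefix_length_le _ (List.prefix_append w L.flatten) (by omega)
        rw [← hab, List.append_assoc]
        exact List.prefix_append _ _
      obtain ⟨w'', rfl⟩ := hp
      have h1 : s ++ b = w'' ++ L.flatten := by
        apply List.append_cancel_left (as := a)
        rw [← List.append_assoc, hab, List.append_assoc]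
      have h2 : w''.length ≤ s.length := by
        have := h.le hw
        rw [List.length_append] at this
        omega
      have hp2 : w'' <+: s := by
        apply List.prefix_of_prefix_length_le (l₃ := s ++ b) _ (List.prefix_append _ _) h2
        rw [h1]
        exact List.prefix_append _ _
      obtain ⟨s', rfl⟩ := hp2
      have h3 : s' <+: L.flatten := by
        refine ⟨b, ?_⟩
        apply List.append_cancel_left (as := w'')
        rw [← List.append_assoc, h1]
      obtain ⟨v, s1, e1, e2, e3⟩ := h.prefix_decomp L (fun w hw => hL w (by simp [hw])) s' h3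
      exact ⟨a, w'', v, s1, hw, by rw [e1, List.append_assoc], e2, e3⟩

lemma Lev.chop_start (h : Lev W n) (v : Word) (hv : v ∈ Conc W) (m : ℕ) (hm : m ≤ v.length) :
    ∃ v1 v2, v = v1 ++ v2 ∧ v1 ∈ Conc W ∧ v2 ∈ Conc W ∧ m ≤ v1.length ∧
      v1.length ≤ m + (n + 1) := by
  obtain ⟨L, hL, rfl⟩ := hv
  induction L generalizing m with
  | nil => exact ⟨[], [], rfl, conc_nil W, conc_nil W, by simpa using hm, by simp⟩
  | cons w L ih =>
    have hw : w ∈ W := hL w (by simp)
    have hL' : ∀ w ∈ L, w ∈ W := fun w hw => hL w (by simp [hw])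
    by_cases hmw : m ≤ w.length
    · refine ⟨w, L.flatten, rfl, conc_mem hw, ⟨L, hL', rfl⟩, hmw, ?_⟩
      have := h.le hw
      omega
    · have hm' : m - w.length ≤ L.flatten.length := by
        rw [List.flatten_cons, List.length_append] at hm
        omega
      obtain ⟨v1, v2, e1, e2, e3, e4, e5⟩ := ih (m - w.length) hL' hm'
      refine ⟨w ++ v1, v2, by rw [List.flatten_cons, e1, List.append_assoc],
        conc_append (conc_mem hw) e2, e3, ?_, ?_⟩
      · rw [List.length_append]
        omega
      · rw [List.length_append]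
        omega

lemma Lev.chop_end (h : Lev W n) (v : Word) (hv : v ∈ Conc W) (m : ℕ) (hm : m ≤ v.length) :
    ∃ v1 v2, v = v1 ++ v2 ∧ v1 ∈ Conc W ∧ v2 ∈ Conc W ∧ m ≤ v2.length ∧
      v2.length ≤ m + (n + 1) := by
  obtain ⟨L, hL, rfl⟩ := hv
  induction L with
  | nil => exact ⟨[], [], rfl, conc_nil W, conc_nil W, by simpa using hm, by simp⟩
  | cons w L ih =>
    have hw : w ∈ W := hL w (by simp)
    have hL' : ∀ w ∈ L, w ∈ W := fun w hw => hL w (by simp [hw])
    by_cases hmw : m ≤ L.flatten.length
    · obtain ⟨v1, v2, e1, e2, e3, e4, e5⟩ := ih hL' hmw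
      exact ⟨w ++ v1, v2, by rw [List.flatten_cons, e1, List.append_assoc],
        conc_append (conc_mem hw) e2, e3, e4, e5⟩
    · refine ⟨[], (w :: L).flatten, rfl, conc_nil W, ⟨_, hL, rfl⟩, hm, ?_⟩
      have := h.le hw
      rw [List.flatten_cons, List.length_append]
      omega

/-- The number of letters at both ends which may be changed. -/
def Dd (n : ℕ) : ℕ := n * n + 2 * (n + 1)

/-- An infix of a concatenation becomes a concatenation of the same length after changing a
bounded number of letters at both ends. -/
lemma Lev.align_both (h : Lev W n) (u : Word) (hu : u ∈ Conc W) (s : Word) (hs : s <:+: u)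
    (hlen : 4 * Dd n ≤ s.length) :
    ∃ c t1 v t3 c1 c3, c ∈ Conc W ∧ s = t1 ++ v ++ t3 ∧ c = c1 ++ v ++ c3 ∧
      c1.length = t1.length ∧ c3.length = t3.length ∧ t1.length ≤ Dd n ∧ t3.length ≤ Dd n := by
  have hD : Dd n = n * n + 2 * (n + 1) := rfl
  obtain ⟨w', s0, v, s1, hw, rfl, hv, hs1⟩ := h.infix_decomp u hu s hs (by omega)
  have hs0 : s0.length ≤ n + 1 := by
    have := h.le hw
    rw [List.length_append] at this
    omega
  simp only [List.length_append] at hlen
  obtain ⟨v1, v', e1, e2, e3, e4, e5⟩ := h.chop_start v hv (n * n) (by omega)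
  have hv' : n * n ≤ v'.length := by
    have := congrArg List.length e1
    rw [List.length_append] at this
    omega
  obtain ⟨v2, v3, f1, f2, f3, f4, f5⟩ := h.chop_end v' e3 (n * n) hv'
  obtain ⟨c1, g1, g2⟩ := h.fill (s0.length + v1.length) (by omega)
  obtain ⟨c3, g3, g4⟩ := h.fill (v3.length + s1.length) (by omega)
  refine ⟨c1 ++ v2 ++ c3, s0 ++ v1, v2, v3 ++ s1, c1, c3,
    conc_append (conc_append g1 f2) g3, ?_, rfl, ?_, ?_, ?_, ?_⟩
  · rw [e1, f1]
    simp only [List.append_assoc]
  · rw [g2, List.length_append]
  · rw [g4, List.length_append]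
  · rw [List.length_append]
    omega
  · rw [List.length_append]
    omega

/-- An infix of a concatenation becomes a suffix of a concatenation of given larger length after
changing a bounded number of letters at the end. -/
lemma Lev.align_end (h : Lev W n) (u : Word) (hu : u ∈ Conc W) (s : Word) (hs : s <:+: u)
    (hlen : 4 * Dd n ≤ s.length) (R : ℕ) (hR : Dd n ≤ R) :
    ∃ g v t3 c3, g ++ (v ++ c3) ∈ Conc W ∧ s = v ++ t3 ∧ c3.length = t3.length ∧
      t3.length ≤ Dd n ∧ g.length = R := by
  have hD : Dd n = n * n + 2 * (n + 1) := rfl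
  obtain ⟨w', s0, v, s1, hw, rfl, hv, hs1⟩ := h.infix_decomp u hu s hs (by omega)
  have hw' := h.le hw
  rw [List.length_append] at hw'
  simp only [List.length_append] at hlen
  obtain ⟨v2, v3, f1, f2, f3, f4, f5⟩ := h.chop_end v hv (n * n) (by omega)
  obtain ⟨g, g1, g2⟩ := h.fill (R - w'.length) (by omega)
  obtain ⟨c3, g3, g4⟩ := h.fill (v3.length + s1.length) (by omega)
  refine ⟨g ++ w', s0 ++ v2, v3 ++ s1, c3, ?_, ?_, ?_, ?_, ?_⟩
  · have := conc_append (conc_append (conc_append g1 (conc_mem hw)) f2) g3
    simpa only [List.append_assoc] using this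
  · rw [f1]
    simp only [List.append_assoc]
  · rw [g4, List.length_append]
  · rw [List.length_append]
    omega
  · rw [List.length_append]
    omega

/-- Short infixes of concatenations are infixes of concatenations of two words. -/
lemma Lev.short_infix (h : Lev W n) (u : Word) (hu : u ∈ Conc W) (s : Word) (hs : s <:+: u)
    (hlen : s.length ≤ n) : ∃ w ∈ W, ∃ w' ∈ W, s <:+: w ++ w' := by
  obtain ⟨L, hL, rfl⟩ := hu
  induction L with
  | nil =>
    have : s = [] := by simpa using hs
    subst this
    obtain ⟨w, hw, _⟩ := h.ex0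
    exact ⟨w, hw, w, hw, List.nil_infix⟩
  | cons w L ih =>
    rw [List.flatten_cons] at hs
    have hw : w ∈ W := hL w (by simp)
    obtain ⟨a, b, hab⟩ := hs
    by_cases ha : w.length ≤ a.length
    · apply ih (fun w hw => hL w (by simp [hw]))
      have hp : w <+: a := by
        apply List.prefix_of_prefix_length_le (List.prefix_append w L.flatten) _ ha
        rw [← hab, List.append_assoc]
        exact List.prefix_append _ _
      obtain ⟨a', rfl⟩ := hp
      refine ⟨a', b, ?_⟩
      have : w ++ (a' ++ s ++ b) = w ++ L.flatten := by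
        rw [← hab]
        simp
      exact List.append_cancel_left this
    · rcases L with _ | ⟨w2, L⟩
      · refine ⟨w, hw, w, hw, ?_⟩
        have h1 : s <:+: w := ⟨a, b, by simpa using hab⟩
        exact h1.trans (List.prefix_append w w).isInfix
      · have hw2 : w2 ∈ W := hL w2 (by simp)
        refine ⟨w, hw, w2, hw2, ?_⟩
        have hp : a ++ s <+: w ++ w2 := by
          apply List.prefix_of_prefix_length_le (l₃ := w ++ (w2 :: L).flatten)
          · rw [← hab]
            exact List.prefix_append _ _
          · rw [List.flatten_cons, ← List.append_assoc]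
            exact List.prefix_append _ _
          · have := h.ge hw2
            simp only [List.length_append]
            omega
        exact (List.suffix_append a s).isInfix.trans hp.isInfix

/-- Long infixes of concatenations contain words. -/
lemma Lev.long_infix (h : Lev W n) (u : Word) (hu : u ∈ Conc W) (s : Word) (hs : s <:+: u)
    (hlen : 2 * (n + 1) ≤ s.length) : ∃ w ∈ W, w <:+: s := by
  obtain ⟨w', s0, v, s1, hw, rfl, hv, hs1⟩ := h.infix_decomp u hu s hs (by
    have := h.pos
    omega)
  have hw' := h.le hw
  rw [List.length_append] at hw'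
  obtain ⟨L, hL, rfl⟩ := hv
  rcases L with _ | ⟨w, L⟩
  · have hn := h.pos
    have hs0 : s0.length = n + 1 := by
      simp only [List.flatten_nil, List.append_nil, List.length_append] at hlen
      omega
    have : w' = [] := by
      apply List.eq_nil_of_length_eq_zero
      omega
    subst this
    refine ⟨s0, by simpa using hw, ?_⟩
    rw [List.append_assoc]
    exact (List.prefix_append _ _).isInfix
  · refine ⟨w, hL w (by simp), ?_⟩
    refine ⟨s0, L.flatten ++ s1, ?_⟩
    simp only [List.flatten_cons, List.append_assoc]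

end Pool.Agent.X238.Asp
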